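import Pool.Agent.helper52.HY.Spec
import Pool.Agent.helper56.NR.Spec

/-!
# Project nz: (MP_af9036_an): outside the closure of `H_n` EVERY small scale is neutral

Author: helper56 (B1 of the master document DENSITY.md, new proof with the domains `V_k = f^(-k)(D(0,4))` instead of nice domains).
THEOREM (`FIN_stmt`). For `n ≥ 3`, `r > 0` there is `C = C(n, r)` such that for every `c ∈ M_n` with `dist(c, H_n) ≥ r` and every sufficiently small `ρ > 0` there is `s ≥ 1` with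
`f^s(D(0, ρ)) ⊆ D(0, C ρ)`. (So `c ∈ closure(H_n)` if for every `C` there are arbitrarily small `ρ` without such `s`.)

PLAN. `V = V_k`, `φ : UD → V` a Riemann map, `φ 0 = 0`, `k` large. `x` a typical point of the line field (it exists: BRG), `y i = φ⁻¹(f^i x)`, `j` = the first index with `1 - ‖y j‖ > 2^(-M)`. The disc `S (y j) (τ UD)` contains `0`. Pull it back along the orbit of `x`,
cut with slits whenever the critical value is in the domain. The cuts at far passages (`1 - ‖y l‖ ≤ 2^(-Mb)`) cost together less than `ε` (count by Theorem W+, HY.CNH). If at a near passage the critical value is at bounded distance from the centre then we have a neutral return (`Neu`), otherwise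
the cuts at the near passages are also harmless, and `y j` is clean on a domain which contains `0` at bounded distance, against `EX.Star`.

RULES. File `Pool/Agent/<seat>/NZ/XX.lean`: `import Pool.Agent.helper56.NZ.Spec` (and any proved module you want to use), `set_option autoImplicit false`,
`open Complex Metric Set Filter Topology MeasureTheory Pool.Agent.helper98.ILF Pool.Agent.helper16.Multibrot`, `open HY (UD T S hd UN RM VV SG Orb fz)`, `noncomputable section`, `namespace NZ`, `theorem XX (h : YY_stmt) ... : XX_stmt`. Hypotheses may be: other statements of this file (no circles), the statements of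
`HY` (Pool/Agent/helper52/HY/Spec.lean: MOB HDI DLN PDC VKB SGE SHR CNH SMH CLB ..; in progress), `V3.KO0_stmt, KO1_stmt, KO2_stmt, KO3_stmt` (proved), `MPS.LR_stmt, MPS.LRU_stmt` (proved), `EX.STR_stmt`, `EX.NZR_stmt`, `EX.OM0_stmt` (proved), `NR.LMZ_stmt` (proved), `BR.BRG_stmt` (proved).
Auxiliary lemmas prefixed `XX_`. No `sorry`, no straight double quotes in comments. Tell helper56 at once if a statement is false or a constant does not fit.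

Notation: `UD = ball 0 1`, `T a x = (x - a)/(1 - conj a x)`, `S a x = (x + a)/(1 + conj a x)`, `hd H x = ‖H' x‖/(1 - ‖H x‖²)`, `UN H`: `H` holomorphic and injective on `UD` with values in `UD`. `HY.fz n c = EX.ff n c` by `rfl` (or `funext`).
-/

set_option autoImplicit false

open Complex Metric Set Filter Topology MeasureTheory
open Pool.Agent.helper98.ILF Pool.Agent.helper16.Multibrot
open HY (UD T S hd UN RM VV SG Orb fz)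

noncomputable section

namespace NZ

/-! ## Definitions -/

/-- the loss allowed at the index `q`. -/
def lam (n Mb : ℕ) (η : ℝ) (y : ℕ → ℂ) (q : ℕ) : ℝ :=
  if 1 - ‖y q‖ ≤ (1 / 2 : ℝ) ^ Mb then 2 * (n : ℝ) ^ 2 * (1 - ‖y q‖) ^ 2 else 2 * η ^ 2

/-- a family of inverse branches along the orbit for the indices `i ≤ l ≤ j`, with the total cut `σ`. -/
structure Fm (n : ℕ) (c : ℂ) (φ : ℂ → ℂ) (l₀ τ η : ℝ) (Mb : ℕ) (y : ℕ → ℂ) (j i : ℕ) (σ : ℂ → ℂ) (H : ℕ → ℂ → ℂ) :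
    Prop where
  ij : i ≤ j
  un : ∀ l, i ≤ l → l ≤ j → UN (H l)
  val : ∀ l, i ≤ l → l ≤ j → H l 0 = y l
  sig : UN σ
  sg0 : σ 0 = 0
  top : ∀ x ∈ UD, H j x = S (y j) (τ * σ x)
  rel : ∀ l, i ≤ l → l < j → ∀ x ∈ UD, φ (H (l + 1) x) = fz n c (φ (H l x))
  big : ∀ l, i < l → l ≤ j → l₀ * ‖deriv σ 0‖ < hd (H l) 0
  los : Real.exp (-∑ q ∈ Finset.Ico i j, lam n Mb η y q) ≤ ‖deriv σ 0‖

/-- a neutral passage: `f^s` maps a domain about `c` of relative size `δ` univalently into the disc `S (y j) (τ UD)`. -/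
def Neu (n : ℕ) (c : ℂ) (φ : ℂ → ℂ) (b : ℂ) (δ τ : ℝ) (y : ℕ → ℂ) (j : ℕ) : Prop :=
  ∃ (s : ℕ) (H F : ℂ → ℂ), UN H ∧ MapsTo F UD UD ∧ H 0 = b ∧ δ ≤ hd H 0 ∧
    ∀ x ∈ UD, (fz n c)^[s] (φ (H x)) = φ (S (y j) (τ * F x))

/-- `y j` is clean on the disc `S (y j) (τ UD)` up to a cut `σ` of loss `≤ ε`. -/
def Cln (n : ℕ) (c : ℂ) (φ : ℂ → ℂ) (ε τ : ℝ) (y : ℕ → ℂ) (j : ℕ) : Prop :=
  ∃ σ g : ℂ → ℂ, UN σ ∧ σ 0 = 0 ∧ Real.exp (-ε) ≤ ‖deriv σ 0‖ ∧ DifferentiableOn ℂ g UD ∧ g 0 = φ (y 0) ∧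
    ∀ x ∈ UD, (fz n c)^[j] (g x) = φ (S (y j) (τ * σ x))

/-! ## The disc -/

/-- SLT (medium, explicit): the slit map.
PROOF. `d = ‖v‖`, `e = v/d`. `p z = (1+z)/(1-z)` maps `UD` bijectively to the right half plane. `s = 4d/(1+d)² = 1 - ((1-d)/(1+d))²`, `0 < s ≤ 1`. For `z ∈ UD`: `p z ^ 2` is not in `(-∞, 0]` (slit plane), so `q z = (1 - s) + s (p z)²` is not in `(-∞, 0]` (if it is real and `≤ 0` then `(p z)²` is real and `≤ 0`).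
`P z = q z ^ (1/2)` (principal branch, `Complex.cpow`, holomorphic on the slit plane, `P z ^ 2 = q z`, `0 < Re (P z)`), `σ₀ z = (P z - 1)/(P z + 1) ∈ UD`. Injective: `σ₀` determines `P`, `q`, `(p z)²`, and `p z` (right half plane), `z`. `σ₀ 0 = 0` (`p = P = 1`). Derivative at `0`: `p' 0 = 2`, `q' 0 = 4 s`, `P' 0 = 2 s`, `σ₀' 0 = P'/2 = s`.
`σ₀ z = -d` would give `P z = (1-d)/(1+d)`, `q z = 1 - s`, `p z = 0`: impossible. `σ z = -e σ₀(-conj e z)`: omits `v`, derivative of modulus `s`. `s ≥ 1 - (1-d)² ≥ exp(-2(1-d)²)`: `1 - t ≥ exp(-2t)` for `0 ≤ t ≤ 1/4` (e.g. `Real.exp_bound'` or concavity; `exp(-2t) ≤ 1/(1+2t) ≤ 1 - t` as `(1-t)(1+2t) = 1 + t - 2t² ≥ 1`). -/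
def SLT_stmt : Prop := ∀ v ∈ UD, 1 / 2 ≤ ‖v‖ → ∃ σ : ℂ → ℂ, UN σ ∧ σ 0 = 0 ∧ (∀ x ∈ UD, σ x ≠ v) ∧
  Real.exp (-(2 * (1 - ‖v‖) ^ 2)) ≤ ‖deriv σ 0‖

/-- PIK (short/medium): a univalent map with derivative near `1` covers a large disc. Uses `EX.OM0_stmt`, `V3.KO0_stmt`.
PROOF. `τ₂ = (1+τ₁)/2`. `2√τ₂/(1+τ₂) < 1`: choose `ε` with `exp(-ε) > 2√τ₂/(1+τ₂)`. OM0 (`δ = τ₂`): `closedBall 0 τ₂ ⊆ σ '' UD`. The inverse `σ⁻¹ : ball 0 τ₂ → UD` is holomorphic (inverse of an injective holomorphic function; e.g. `RM`-type lemma) and fixes `0`: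
Schwarz on `ball 0 τ₂` (`Complex.norm_le_norm_of_mapsTo_ball` scaled / `dist_le_div_mul_dist_of_mapsTo_ball`): `‖σ⁻¹ p‖ ≤ ‖p‖/τ₂ ≤ τ₁/τ₂ =: q`. -/
def PIK_stmt : Prop := ∀ τ₁ : ℝ, 0 < τ₁ → τ₁ < 1 → ∃ ε > (0 : ℝ), ∃ q : ℝ, q < 1 ∧ ∀ σ : ℂ → ℂ, UN σ → σ 0 = 0 →
  Real.exp (-ε) ≤ ‖deriv σ 0‖ → ∀ p : ℂ, ‖p‖ ≤ τ₁ → ∃ b : ℂ, ‖b‖ ≤ q ∧ b ∈ UD ∧ σ b = p

/-- STL (short/medium): the stop lemma for large discs. Uses `HY.MOB_stmt`, `HY.HDI_stmt`, `V3.KO3_stmt`.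
PROOF. `G = T (H 0) ∘ H` univalent, `G 0 = 0`, `‖G' 0‖ = hd G 0 = hd H 0 ≤ l₀`. KO3 with `η/2` on `ball 0 1`: `‖G x‖ ≤ C ‖x‖ l₀ ≤ C l₀` for `‖x‖ ≤ 1 - η < 1 - η/2`. `l₀ = 1/(32 C)`. -/
def STL_stmt : Prop := ∀ η : ℝ, 0 < η → η < 1 → ∃ l₀ : ℝ, 0 < l₀ ∧ l₀ ≤ 1 / 4 ∧ ∀ H : ℂ → ℂ, UN H → hd H 0 ≤ l₀ →
  ∀ x : ℂ, ‖x‖ ≤ 1 - η → ‖T (H 0) (H x)‖ ≤ 1 / 32

/-- HDV (short/medium): change of the centre. Uses `HY.MOB_stmt`, `HY.HDI_stmt`, `V3.KO3_stmt`.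
PROOF. `G = T (H 0) ∘ H`: `hd (H ∘ S v) 0 = hd (G ∘ S v) 0 ≥ ‖(G ∘ S v)' 0‖ = ‖G' v‖ (1 - ‖v‖²)` (HDI; `deriv (S v) 0 = 1 - ‖v‖²`, `S v 0 = v`), KO3 with `η/2` on `ball 0 1`: `‖G' 0‖ ≤ C ‖G' v‖`; `‖G' 0‖ = hd H 0`, `1 - ‖v‖² ≥ η`. `κ = η/C`. -/
def HDV_stmt : Prop := ∀ η : ℝ, 0 < η → η < 1 → ∃ κ : ℝ, 0 < κ ∧ κ ≤ 1 ∧ ∀ (H : ℂ → ℂ) (v : ℂ), UN H → ‖v‖ ≤ 1 - η →
  UN (fun x => H (S v x)) ∧ H (S v 0) = H v ∧ κ * hd H 0 ≤ hd (fun x => H (S v x)) 0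

/-- HDC (short): composition with a cut.
PROOF. Chain rule at `0` (`σ 0 = 0`): `(H ∘ σ)' 0 = H' 0 σ' 0`. `‖σ' 0‖ ≤ 1`: Schwarz (`Complex.norm_deriv_le_one_of_mapsTo_ball`). The last statement: `S y` maps `UD` injectively to `UD` and `τ σ` as well; `hd (S y ∘ (τ σ)) 0 = hd (τ σ) 0 = τ ‖σ' 0‖` (HDI or directly: `(S y)' 0 = 1 - ‖y‖²`, `S y 0 = y`). Uses MOB. -/
def HDC_stmt : Prop := (∀ H σ : ℂ → ℂ, UN H → UN σ → σ 0 = 0 → UN (fun x => H (σ x)) ∧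
    hd (fun x => H (σ x)) 0 = hd H 0 * ‖deriv σ 0‖) ∧
  (∀ σ : ℂ → ℂ, UN σ → σ 0 = 0 → ‖deriv σ 0‖ ≤ 1) ∧
  (∀ σ ρ : ℂ → ℂ, UN σ → UN ρ → σ 0 = 0 → ρ 0 = 0 → UN (fun x => σ (ρ x)) ∧
    ‖deriv (fun x => σ (ρ x)) 0‖ = ‖deriv σ 0‖ * ‖deriv ρ 0‖) ∧
  (∀ (σ : ℂ → ℂ) (y : ℂ) (τ : ℝ), UN σ → σ 0 = 0 → y ∈ UD → 0 < τ → τ ≤ 1 → UN (fun x => S y (τ * σ x)) ∧
    S y (τ * σ 0) = y ∧ hd (fun x => S y (τ * σ x)) 0 = τ * ‖deriv σ 0‖)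

/-! ## One step -/

/-- BNX (medium): the next inverse branch when there is no obstacle. Uses `MPS.LR_stmt`, `V3.KO0_stmt`.
PROOF. `φ (H' x) - c ≠ 0` on `UD` (`φ b = c`, `φ` injective, `H' x ≠ b`). LR on `UD` (convex): `h` holomorphic, `h x ^ n = φ (H' x) - c`, `h 0 = φ y`. So `f(h x) = φ (H' x) ∈ V`, `h x ∈ U ⊆ V` (`SG.sub`), `H x = φ⁻¹ (h x) ∈ UD`, holomorphic (inverse of an injective holomorphic function), `H 0 = y`. Injective because `φ ∘ H'` is. See `HY.BRH_stmt`. -/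
def BNX_stmt : Prop := ∀ (n : ℕ) (c : ℂ) (V : Set ℂ) (φ ψ : ℂ → ℂ) (b : ℂ), SG n c V φ ψ b → ∀ (y : ℂ) (H' : ℂ → ℂ),
  y ∈ UD → UN H' → φ (H' 0) = fz n c (φ y) → (∀ x ∈ UD, H' x ≠ b) →
  ∃ H : ℂ → ℂ, UN H ∧ H 0 = y ∧ ∀ x ∈ UD, φ (H' x) = fz n c (φ (H x))

/-- TIP (short): the tip is near the boundary. Uses `HY.PDC_stmt`, `HY.MOB_stmt`.
PROOF. PDC with `y' = H' 0`: `‖y‖^n ≤ ‖T b (H' 0)‖ = ‖T (H' 0) b‖ = ‖T (H' 0) (H' v)‖ ≤ ‖v‖` (Schwarz lemma for `T (H' 0) ∘ H' : UD → UD`, which fixes `0`). -/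
def TIP_stmt : Prop := ∀ (n : ℕ) (c : ℂ) (V : Set ℂ) (φ ψ : ℂ → ℂ) (b : ℂ), SG n c V φ ψ b → ∀ (y v : ℂ) (H' : ℂ → ℂ),
  y ∈ UD → v ∈ UD → UN H' → φ (H' 0) = fz n c (φ y) → H' v = b → ‖y‖ ^ n ≤ ‖v‖

/-- STE (medium): one step. Uses SLT, HDV, HDC, BNX, TIP.
PROOF. `δ = κ l₀`, `κ` from HDV for `η`. `a = 1 - ‖y i‖ ≤ 2^(-M)`. (A) No `v ∈ UD` with `H (i+1) v = b`: BNX for `H' = H (i+1)` (`φ (H (i+1) 0) = φ (y (i+1)) = f(φ (y i))`) gives `K`; `σ' = σ`, new family `Function.update H i K`. `los`: `exp(-∑_(Ico i j)) ≤ exp(-∑_(Ico (i+1) j))` as `0 ≤ lam`. `big` for `l = i+1`: `l₀ ‖σ' 0‖ ≤ l₀ < hd (H (i+1)) 0`.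
(B) `H (i+1) v = b`: TIP: `‖v‖ ≥ ‖y i‖^n ≥ 1 - n a ≥ 3/4` (Bernoulli `one_add_mul_le_pow`, `hM`). If `a ≤ 2^(-Mb)` or `1 - ‖v‖ ≤ η`: SLT: `σ_v`; `exp(-lam i) ≤ ‖σ_v' 0‖` (first case `1 - ‖v‖ ≤ n a`, `lam i = 2 n² a²`; in the second case if also not the first, `lam i = 2 η²`). `σ' = σ ∘ σ_v`, `H' l = H l ∘ σ_v` for `l ≥ i+1`; `H' (i+1)` omits `b` (injectivity of `H (i+1)`):
BNX gives `H' i`. `big`: HDC: `hd (H l ∘ σ_v) 0 = hd (H l) 0 ‖σ_v' 0‖`, `‖σ' 0‖ = ‖σ' 0‖ ‖σ_v' 0‖` (old `σ`); for `l = i+1` use `l₀ < hd (H (i+1)) 0` and `‖σ' 0‖ ≤ 1`. `los`: product.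
(C) Otherwise `‖v‖ < 1 - η`: HDV: `H (i+1) ∘ S v` is `UN`, value `b` at `0`, `hd ≥ κ l₀ = δ`; `F = σ ∘ S v`, `s = j - (i+1)`: `f^s(φ (H (i+1) z)) = φ (H j z) = φ (S (y j) (τ σ z))` for `z = S v x` (induction on `rel`). -/
def STE_stmt : Prop := ∀ (l₀ η : ℝ), 0 < l₀ → 0 < η → η ≤ 1 / 4 → ∃ δ > (0 : ℝ),
  ∀ (n : ℕ) (c : ℂ) (V : Set ℂ) (φ ψ : ℂ → ℂ) (b : ℂ), SG n c V φ ψ b →
  ∀ (τ : ℝ) (M Mb : ℕ) (y : ℕ → ℂ) (j i : ℕ) (σ : ℂ → ℂ) (H : ℕ → ℂ → ℂ), (n : ℝ) * (1 / 2 : ℝ) ^ M ≤ 1 / 4 →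
  0 < τ → τ ≤ 1 → Orb n c φ M y j → Fm n c φ l₀ τ η Mb y j (i + 1) σ H → l₀ < hd (H (i + 1)) 0 →
  (∃ (σ' : ℂ → ℂ) (H' : ℕ → ℂ → ℂ), Fm n c φ l₀ τ η Mb y j i σ' H') ∨ Neu n c φ b δ τ y j

/-- LOS (medium): the total loss is small. Uses `HY.CNH_stmt`, `HY.SMH_stmt`.
PROOF. `N` from CNH for `l = l₀/2` (may assume `N ≥ 1`). `Mb` with `4 n² N 2^(-Mb) ≤ ε/3`, `2 n² 4^(-Mb) ≤ ε/3`; then `η ≤ 1/4` with `2 η² (N 2^Mb + 1) ≤ ε/3`. First claim: `lam ≤ ε` clear. Let `Fm` be given, `a q = 1 - ‖y q‖ ∈ (0, 1]` (`Orb.mem`). For `i < q < j`: `hd (H q) 0 > l₀ ‖σ' 0‖ ≥ l₀/2`. For `q < q'` in this range `f^(q'-q)(φ (H q x)) = φ (H q' x)` (induction on `rel`).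
CNH: every dyadic class `(1/2)^(m+1) ≤ a ≤ (1/2)^m` in `Ioo i j` has at most `N 2^m` elements. Far `q` (`a q ≤ 2^(-Mb)`): SMH: `∑ a² ≤ 2 N 2^(-Mb)`, so `∑ lam ≤ 4 n² N 2^(-Mb) ≤ ε/3`. The other `q ∈ Ioo i j` are in the classes `m < Mb`: at most `∑_(m<Mb) N 2^m ≤ N 2^Mb`. The index `q = i` has `lam ≤ max (2 n² 4^(-Mb)) (2 η²)`. -/
def LOS_stmt : Prop := ∀ n : ℕ, 2 ≤ n → ∀ r > (0 : ℝ), ∀ l₀ > (0 : ℝ), ∀ ε > (0 : ℝ), ∃ (Mb : ℕ) (η : ℝ), 0 < η ∧ η ≤ 1 / 4 ∧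
  (∀ (y : ℕ → ℂ) (q : ℕ), y q ∈ UD → lam n Mb η y q ≤ ε) ∧
  ∀ c ∈ multibrot n, Disjoint (ball c r) (hyperbolic n) → ∀ (V : Set ℂ) (φ : ℂ → ℂ), RM V 0 φ →
  ∀ (τ : ℝ) (M : ℕ) (y : ℕ → ℂ) (j i : ℕ) (σ : ℂ → ℂ) (H : ℕ → ℂ → ℂ), Orb n c φ M y j →
  Fm n c φ l₀ τ η Mb y j i σ H → 1 / 2 ≤ ‖deriv σ 0‖ → ∑ q ∈ Finset.Ico i j, lam n Mb η y q ≤ ε

/-- MPL (medium): THE MAIN LEMMA. Uses STL, STE, LOS, HDC, `HY.CLB_stmt`, `HY.MOB_stmt`.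
PROOF. `M ≥ M_CLB`, `M ≥ 1`, `n 2^(-M) ≤ 1/4`. Given `ε` (may assume `ε ≤ 1/2`): `η₁ = 1 - exp(-ε/2)`, `l₀` from STL for `η₁`; `Mb, η` from LOS for `l₀` and `ε' = ε/4`; `δ` from STE. Let `i₀` be the smallest `i ≤ j` for which there is a family `Fm .. j i σ H` with `‖σ' 0‖ ≥ 1/2` (`i = j`: `σ = id`, `H j x = S (y j) (τ x)`, empty sum, `1 ≤ 1`; HDC).
LOS: `∑_(Ico i₀ j) lam ≤ ε/4`, `‖σ' 0‖ ≥ exp(-ε/4)`. (a) `i₀ = 0`: `Cln` with `g = φ ∘ H 0` (induction on `rel`: `f^j(φ (H 0 x)) = φ (H j x)`). (b) `i₀ > 0` and `l₀ < hd (H i₀) 0`: STE with `i = i₀ - 1`: `Neu`, or a family for `i₀ - 1` with `‖σ' 0‖ ≥ exp(-ε/4 - lam) ≥ exp(-ε/2) ≥ 1/2` (`los`, first part of LOS): contradiction to the choice of `i₀`.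
(c) `i₀ > 0`, `hd (H i₀) 0 ≤ l₀`: STL: for `x ∈ UD`, `H₁ x = H i₀ ((1-η₁) x)` satisfies `‖T (y i₀) (H₁ x)‖ ≤ 1/32`. CLB for the segment `0..i₀`, index `0`: `K ∈ UN`, `K 0 = y 0`, `f^i₀(φ (K x)) = φ (S (y i₀) (x/16))`. `g x = φ (K (16 T (y i₀) (H₁ x)))`: `f^i₀(g x) = φ (H₁ x)` (MOB), `f^j(g x) = φ (H j ((1-η₁) x))`, so `Cln` with `σ₁ x = σ ((1-η₁) x)`,
`‖σ₁' 0‖ ≥ exp(-ε/2) exp(-ε/4)`. (`16 T (y i₀) (H₁ x) ∈ UD`.) -/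
def MPL_stmt : Prop := ∀ n : ℕ, 2 ≤ n → ∀ r > (0 : ℝ), ∃ M : ℕ, 1 ≤ M ∧ ∀ ε > (0 : ℝ), ∃ δ > (0 : ℝ), ∀ τ : ℝ, 1 / 2 ≤ τ → τ < 1 →
  ∀ c ∈ multibrot n, Disjoint (ball c r) (hyperbolic n) → ∀ (V : Set ℂ) (φ ψ : ℂ → ℂ) (b : ℂ), SG n c V φ ψ b →
  ∀ (y : ℕ → ℂ) (j : ℕ), Orb n c φ M y j → Cln n c φ ε τ y j ∨ Neu n c φ b δ τ y j

/-! ## Scales -/

/-- MON (short): the coordinates increase with `k`. Uses `HY.VKB_stmt`, `V3.KO0_stmt`.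
PROOF. `V_k' ⊆ V_k` (`k ≤ k'`), `θ = φ⁻¹ ∘ φ' : UD → UD` is holomorphic (inverse of an injective holomorphic function), `θ 0 = 0`, `θ x' = x`: Schwarz. For the derivatives: `φ' = φ ∘ θ`, `‖θ' 0‖ ≤ 1`. -/
def MON_stmt : Prop := ∀ (n : ℕ) (c : ℂ), 2 ≤ n → c ∈ multibrot n → ∀ (k k' : ℕ) (φ φ' : ℂ → ℂ), k ≤ k' →
  RM (VV n c k) 0 φ → RM (VV n c k') 0 φ' → ‖deriv φ' 0‖ ≤ ‖deriv φ 0‖ ∧
  ∀ x ∈ UD, ∀ x' ∈ UD, φ x = φ' x' → ‖x‖ ≤ ‖x'‖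

/-- CFR (medium): consecutive conformal radii are comparable. Uses `HY.VKB_stmt`, `V3.KO0_stmt`.
PROOF. `F = f^k ∘ φ : UD → ball 0 4` (`φ x ∈ V_k`), `F 0 = f^k 0 ∈ filled`, so `‖F 0‖ ≤ 2 + ‖c‖ ≤ 4`; better: `‖f^m 0‖ ≤ 2` for all `m` (`BR.MBB_stmt`, proved, Pool/Agent/helper24/BR/MBB.lean). Schwarz for `(F - F 0)/8`: `‖F x - F 0‖ ≤ 8 ‖x‖`. `‖f w - f (F 0)‖ = ‖w^n - (F 0)^n‖ ≤ n 4^(n-1) ‖w - F 0‖` for `‖w‖ ≤ 4`.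
So for `‖x‖ < δ = 1/(8 n 4^(n-1))`: `‖f^(k+1)(φ x)‖ < ‖f^(k+1) 0‖ + 1 ≤ 3 < 4`: `φ x ∈ V_(k+1)`. `θ x = φ'⁻¹ (φ (δ x)) : UD → UD`, `θ 0 = 0`: `‖θ' 0‖ ≤ 1`, i.e. `δ ‖φ' 0‖ ≤ ‖φ'' 0‖` (the two Riemann maps `φ`, `φ'`). `κ = δ`. -/
def CFR_stmt : Prop := ∀ n : ℕ, 2 ≤ n → ∃ κ : ℝ, 0 < κ ∧ κ ≤ 1 ∧ ∀ c ∈ multibrot n, ∀ (k : ℕ) (φ φ' : ℂ → ℂ),
  RM (VV n c k) 0 φ → RM (VV n c (k + 1)) 0 φ' → κ * ‖deriv φ 0‖ ≤ ‖deriv φ' 0‖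

/-- SCL (medium): the conformal radii fill all small scales. Uses CFR, MON, `HY.VKB_stmt`, `V3.KO1_stmt`.
PROOF. `a k = ‖(Φ k)' 0‖` is decreasing (MON), `κ a k ≤ a (k+1)` (CFR), and tends to `0`: otherwise `a k ≥ a > 0` for all `k`, KO1: `ball 0 (a/K) ⊆ V_k` for all `k`, so it is contained in `filled` (VKB), against `interior = ∅`. `ρ₀ = a k₀` (positive: KO0, or KO1-free: if `a k₀ = 0` all later are `0`, against CFR.. use KO0).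
For `0 < ρ < ρ₀` let `k + 1` be the first index `> k₀` with `a (k+1) < ρ`: `a k ≥ ρ` and `a k ≤ a (k+1)/κ ≤ ρ/κ`. -/
def SCL_stmt : Prop := ∀ n : ℕ, 2 ≤ n → ∃ κ : ℝ, 0 < κ ∧ κ ≤ 1 ∧ ∀ c ∈ multibrot n, interior (filled n c) = ∅ →
  ∀ Φ : ℕ → ℂ → ℂ, (∀ k, RM (VV n c k) 0 (Φ k)) → ∀ k₀ : ℕ, ∃ ρ₀ > (0 : ℝ), ∀ ρ : ℝ, 0 < ρ → ρ < ρ₀ →
  ∃ k ≥ k₀, ρ ≤ ‖deriv (Φ k) 0‖ ∧ ‖deriv (Φ k) 0‖ ≤ ρ / κ

/-- NEU (medium): a neutral passage gives a neutral return of `0`. Uses CFR, `HY.MOB_stmt`, `HY.VKB_stmt`, `V3.KO1_stmt`, `V3.KO2_stmt` or `V3.KO3_stmt`.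
PROOF. `R = ‖φ' 0‖ > 0`. `X = φ ∘ H` is univalent on `UD`, `X 0 = c`, `‖X' 0‖ = ‖φ' b‖ ‖H' 0‖ = ‖φ' b‖ (1 - ‖b‖²) hd H 0 ≥ δ ‖(φ ∘ S b)' 0‖`. `SG.rel`: `ψ x ^ n = φ (S b (x^n)) - c`; divide by `x^n` and let `x → 0`: `‖ψ' 0‖^n = ‖(φ ∘ S b)' 0‖`. CFR (`ψ` is a Riemann map of `V_(k+1)` by `rmu` and VKB): `‖ψ' 0‖ ≥ κ R`. KO1: `ball c (δ κ^n R^n/K) ⊆ X '' UD`.
So for `‖z‖ < c₁ R` with `c₁^n ≤ δ κ^n/K` (e.g. `c₁ = min 1 (δ/K) κ`, as `c₁^n ≤ (min 1 (δ/K)) κ^n`): `f z = z^n + c = φ (H x)`, `x ∈ UD`, `f^(s+1) z = φ (S (y j) (τ F x))`. `w = S (y j) (τ F x)`: `‖T (y j) w‖ ≤ τ`, `‖y j‖ ≤ t`: `‖w‖ ≤ (t+τ)/(1+tτ) =: τ' < 1`. Growth (KO2 or KO3 for `φ` on `ball 0 1`): `‖φ w‖ ≤ C R`. -/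
def NEU_stmt : Prop := ∀ n : ℕ, 2 ≤ n → ∀ δ τ t : ℝ, 0 < δ → 0 < τ → τ < 1 → 0 < t → t < 1 → ∃ c₁ C : ℝ, 0 < c₁ ∧ 0 < C ∧
  ∀ c ∈ multibrot n, ∀ (k : ℕ) (φ ψ : ℂ → ℂ) (b : ℂ), SG n c (VV n c k) φ ψ b → ∀ (y : ℕ → ℂ) (j : ℕ), ‖y j‖ ≤ t →
  Neu n c φ b δ τ y j → ∃ s : ℕ, 1 ≤ s ∧ ∀ z : ℂ, ‖z‖ < c₁ * ‖deriv φ 0‖ → ‖(fz n c)^[s] z‖ ≤ C * ‖deriv φ 0‖

/-! ## Typical points -/

/-- LAM (medium): the set of the points whose orbits stay away from `0` has area zero. Uses `HY.CLB_stmt`, `HY.SHR_stmt`, `HY.SGE_stmt`, `HY.VKB_stmt`, `HY.MOB_stmt`, `V3.KO0_stmt`, `V3.KO1_stmt`, `BR.BRG_stmt`, `NR.LMZ_stmt`.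
PROOF. BRG (`BR.exists_ball`, Pool/Agent/helper45/BR/Cor.lean): `interior filled = ∅`. `M` from CLB, `k` from SHR for `ε`, `2^(-M)`, SGE: `φ, ψ, b`. For `x ∈ UP.Lam n c ε`: `y i = φ⁻¹(f^i x)` is `Orb .. M y t` for all `t`. CLB (`i = 0`, `j = t`): `H`. `X = φ ∘ S (y t) ∘ (·/16)` is univalent on `UD`, `X 0 = f^t x`, `‖X' 0‖ = ‖φ'(y t)‖ (1 - ‖y t‖²)/16 ≥ κ₀ > 0`
(`y t` is in the compact set `{y ∈ UD | φ y ∈ filled}`, `φ' ≠ 0`). KO1: `ball (f^t x) (κ₀/K) ⊆ X '' UD`. `G = φ ∘ H ∘ X⁻¹` on this ball: `UP.Br n c δ t x` with `δ = min 1 (κ₀/K)`. LMZ. (Compare `HY.GRO_stmt`.) -/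
def LAM_stmt : Prop := ∀ n : ℕ, 2 ≤ n → ∀ c ∈ multibrot n, c ∉ closure (hyperbolic n) → ∀ ε > (0 : ℝ),
  volume (UP.Lam n c ε) = 0

/-- TYP (short): typical points. Uses LAM, `EX.STR_stmt`, `EX.NZR_stmt`, `BR.BRG_stmt`.
PROOF. BRG: an invariant line field `μ`. Copy the proof of `NR.FLN` (`Pool/Agent/helper89/NR/FLN.lean`). -/
def TYP_stmt : Prop := ∀ n : ℕ, 3 ≤ n → ∀ c ∈ multibrot n, c ∉ closure (hyperbolic n) → ∃ x ∈ filled n c,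
  (∀ q : ℝ, q < 1 → ∃ T : ℕ, EX.Star n c x q T) ∧ (∀ k : ℕ, (fz n c)^[k] x ≠ 0) ∧
  ∀ ε > (0 : ℝ), ∃ k : ℕ, ‖(fz n c)^[k] x‖ < ε

/-! ## The theorem -/

/-- ONE (medium): one scale. Uses MPL, PIK, NEU, TYP, MON, `HY.SHR_stmt`, `HY.SGE_stmt`, `HY.VKB_stmt`, `HY.MOB_stmt`, `V3.KO0_stmt`, `V3.KO1_stmt`, `BR.BRG_stmt`.
PROOF. `M` from MPL, `τ = 1 - 2^(-M-1)`, `t = 1 - 2^(-M)`, `τ₁ = t/τ < 1`; `ε, q` from PIK for `τ₁`; `δ` from MPL for `ε`; `c₁, C` from NEU for `δ, τ, t`. `c ∉ closure(H_n)`, BRG: `interior filled = ∅`. `x` from TYP, `T₀` with `Star n c x q T₀`. `ε₀ > 0` with `ε₀ ≤ ‖f^i x‖` for `i < T₀`. `k₀` from SHR for `ε₀`, `2^(-M)`. Let `k ≥ k₀`, SGE: `φ, ψ, b`.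
`y i = φ⁻¹(f^i x)` (`f^i x ∈ filled ⊆ V_k`). `j` = the first `i` with `2^(-M) < 1 - ‖y i‖`; it exists: `φ '' ball 0 (1/2)` is a neighbourhood of `0` (KO1, KO0) and the orbit of `x` meets it, `1/2 < 1 - ‖y i‖`. For `i < T₀`: `1 - ‖y i‖ ≤ 2^(-M)` (SHR for `k₀` and MON: the coordinate of `f^i x` for `k` is at least the one for `k₀`), so `j ≥ T₀`. `Orb n c φ M y j`; `‖y j‖ ≤ t`.
MPL. `Neu`: NEU. `Cln`: `σ, g`: `Φ z = φ (S (y j) (τ σ z))` is holomorphic and injective on `ball 0 1`, `f^j(g z) = Φ z`, `g 0 = φ (y 0) = x`. `p = -y j/τ`, `‖p‖ ≤ τ₁`: PIK: `σ b' = p`, `‖b'‖ ≤ q`, `Φ b' = φ (S (y j) (-y j)) = φ 0 = 0`: contradiction to `Star`. -/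
def ONE_stmt : Prop := ∀ n : ℕ, 3 ≤ n → ∀ r > (0 : ℝ), ∃ c₁ C : ℝ, 0 < c₁ ∧ 0 < C ∧
  ∀ c ∈ multibrot n, Disjoint (ball c r) (hyperbolic n) → ∃ k₀ : ℕ, ∀ k ≥ k₀, ∃ φ : ℂ → ℂ, RM (VV n c k) 0 φ ∧
  ∃ s : ℕ, 1 ≤ s ∧ ∀ z : ℂ, ‖z‖ < c₁ * ‖deriv φ 0‖ → ‖(fz n c)^[s] z‖ ≤ C * ‖deriv φ 0‖

/-- FIN (short/medium): THE THEOREM. Uses ONE, SCL, `HY.SGE_stmt`, `BR.BRG_stmt`.
PROOF. `c₁, C₁` from ONE, `κ` from SCL; `C = C₁/(c₁ κ) + 1`. `Φ k` = the map of ONE for `k ≥ k₀`, any Riemann map (SGE) for `k < k₀`. `ρ₀ = c₁ ρ₀'` with `ρ₀'` from SCL. For `ρ < ρ₀`: SCL for `ρ/c₁`: `k ≥ k₀` with `ρ/c₁ ≤ ‖(Φ k)' 0‖ ≤ ρ/(c₁ κ)`. For `‖z‖ < ρ ≤ c₁ ‖(Φ k)' 0‖`: `‖f^s z‖ ≤ C₁ ρ/(c₁ κ) < C ρ`. -/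
def FIN_stmt : Prop := ∀ n : ℕ, 3 ≤ n → ∀ r > (0 : ℝ), ∃ C > (0 : ℝ), ∀ c ∈ multibrot n,
  Disjoint (ball c r) (hyperbolic n) → ∃ ρ₀ > (0 : ℝ), ∀ ρ : ℝ, 0 < ρ → ρ < ρ₀ →
  ∃ s : ℕ, 1 ≤ s ∧ ∀ z : ℂ, ‖z‖ < ρ → ‖(fz n c)^[s] z‖ < C * ρ

end NZ
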